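import Mathlib

/-! Sets of integers with few representations `m = p a`: the inequality of Cauchy and Schwarz. -/

set_option autoImplicit false

namespace Pool.Agent.TH151.RM

open Finset

/-- The number `R_A(m)` of pairs `(p, a)` with `p` prime, `a ∈ A` and `m = p a`. -/
noncomputable def rep (A : Finset ℕ) (m : ℕ) : ℕ :=
  {x : ℕ × ℕ | x.1.Prime ∧ x.2 ∈ A ∧ m = x.1 * x.2}.ncard

/-- the primes up to `N` -/
abbrev PP (N : ℕ) : Finset ℕ := (Finset.Icc 1 N).filter Nat.Prime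

theorem rep_finite (A : Finset ℕ) (m : ℕ) (hm : 0 < m) :
    {x : ℕ × ℕ | x.1.Prime ∧ x.2 ∈ A ∧ m = x.1 * x.2}.Finite := by
  refine ((Finset.range (m + 1) ×ˢ A).finite_toSet).subset ?_
  rintro ⟨p, a⟩ ⟨hp, ha, hm'⟩
  simp only [Finset.coe_product, Set.mem_prod, Finset.mem_coe, Finset.mem_range]
  refine ⟨?_, ha⟩
  have ha0 : 0 < a := by
    rcases Nat.eq_zero_or_pos a with h | h
    · subst h; simp at hm'; omega
    · exact h
  have : p ≤ p * a := Nat.le_mul_of_pos_right p ha0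
  simp only at hm' ⊢
  omega

theorem reindex (N : ℕ) (A : Finset ℕ) (hA : A ⊆ Finset.Icc 1 N) (F : ℕ → ℕ → ℝ) :
    ∑ a ∈ A, ∑ p ∈ a.primeFactors, F (a / p) p =
      ∑ b ∈ Finset.Icc 1 N, ∑ p ∈ PP N, if p * b ∈ A then F b p else 0 := by
  rw [Finset.sum_sigma', Finset.sum_sigma', ← Finset.sum_filter]
  refine Finset.sum_bij' (fun x _ => ⟨x.1 / x.2, x.2⟩) (fun y _ => ⟨y.2 * y.1, y.2⟩) ?_ ?_ ?_ ?_ ?_
  · rintro ⟨a, p⟩ h
    simp only [Finset.mem_sigma, Nat.mem_primeFactors, Finset.mem_filter, Finset.mem_Icc] at h ⊢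
    obtain ⟨ha, hp, hpa, ha0⟩ := h
    have h1 := Finset.mem_Icc.1 (hA ha)
    have h2 : p ≤ a := Nat.le_of_dvd h1.1 hpa
    refine ⟨⟨⟨Nat.div_pos h2 hp.pos, (Nat.div_le_self _ _).trans h1.2⟩,
      ⟨hp.one_lt.le, h2.trans h1.2⟩, hp⟩, ?_⟩
    rw [Nat.mul_div_cancel' hpa]
    exact ha
  · rintro ⟨b, p⟩ h
    simp only [Finset.mem_sigma, Nat.mem_primeFactors, Finset.mem_filter, Finset.mem_Icc] at h ⊢
    obtain ⟨⟨⟨hb1, hb2⟩, ⟨hp1, hp2⟩, hp⟩, hpb⟩ := h
    refine ⟨hpb, hp, Dvd.intro _ rfl, ?_⟩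
    exact Nat.mul_ne_zero hp.ne_zero (by omega)
  · rintro ⟨a, p⟩ h
    simp only [Finset.mem_sigma, Nat.mem_primeFactors] at h
    simp only [Sigma.mk.injEq, heq_eq_eq, and_true]
    exact Nat.mul_div_cancel' h.2.2.1
  · rintro ⟨b, p⟩ h
    simp only [Finset.mem_sigma, Finset.mem_filter, Finset.mem_Icc] at h
    simp only [Sigma.mk.injEq, heq_eq_eq, and_true]
    exact Nat.mul_div_cancel_left _ h.1.2.2.pos
  · rintro ⟨a, p⟩ h
    rfl

/-- the weighted degree of `b` -/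
noncomputable def D (N : ℕ) (A : Finset ℕ) (b : ℕ) : ℝ :=
  ∑ p ∈ PP N, if p * b ∈ A then (1 : ℝ) / p else 0

theorem count_le (A : Finset ℕ) (r a p : ℕ) (hr : ∀ m, 0 < m → rep A m ≤ r) (ha : a ∈ A)
    (ha0 : 0 < a) (hp : p.Prime) :
    (((a.primeFactors.filter fun q => p * (a / q) ∈ A).card : ℕ) : ℝ) ≤
      (r : ℝ) - 1 + if p ∣ a then 1 else 0 := by
  classical
  have hm : 0 < p * a := Nat.mul_pos hp.pos ha0
  have hfin := rep_finite A (p * a) hm
  have hle := hr (p * a) hm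
  set Q := a.primeFactors.filter fun q => p * (a / q) ∈ A with hQ
  have hinj : Function.Injective fun q : ℕ => ((q, p * (a / q)) : ℕ × ℕ) := fun x y h => by
    simpa using congrArg Prod.fst h
  have himg : ∀ x ∈ Q.image (fun q : ℕ => ((q, p * (a / q)) : ℕ × ℕ)),
      x ∈ {x : ℕ × ℕ | x.1.Prime ∧ x.2 ∈ A ∧ p * a = x.1 * x.2} := by
    intro x hx
    obtain ⟨q, hq, rfl⟩ := Finset.mem_image.1 hx
    rw [hQ, Finset.mem_filter, Nat.mem_primeFactors] at hq
    refine ⟨hq.1.1, hq.2, ?_⟩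
    have h1 : q * (a / q) = a := Nat.mul_div_cancel' hq.1.2.1
    calc p * a = p * (q * (a / q)) := by rw [h1]
      _ = q * (p * (a / q)) := by ring
  by_cases hpa : p ∣ a
  · rw [if_pos hpa]
    have h2 : (Q.image (fun q : ℕ => ((q, p * (a / q)) : ℕ × ℕ))).card ≤ r := by
      refine le_trans ?_ hle
      unfold rep
      rw [← Set.ncard_coe_finset]
      exact Set.ncard_le_ncard (fun x hx => himg x (Finset.mem_coe.1 hx)) hfin
    rw [Finset.card_image_of_injective _ hinj] at h2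
    have h3 : (Q.card : ℝ) ≤ r := by exact_mod_cast h2
    linarith
  · rw [if_neg hpa]
    have hnot : ((p, a) : ℕ × ℕ) ∉ Q.image (fun q : ℕ => ((q, p * (a / q)) : ℕ × ℕ)) := by
      intro hx
      obtain ⟨q, hq, hq2⟩ := Finset.mem_image.1 hx
      rw [hQ, Finset.mem_filter, Nat.mem_primeFactors] at hq
      have : q = p := by simpa using congrArg Prod.fst hq2
      exact hpa (this ▸ hq.1.2.1)
    have h2 : (insert ((p, a) : ℕ × ℕ)
        (Q.image (fun q : ℕ => ((q, p * (a / q)) : ℕ × ℕ)))).card ≤ r := by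
      refine le_trans ?_ hle
      unfold rep
      rw [← Set.ncard_coe_finset]
      refine Set.ncard_le_ncard (fun x hx => ?_) hfin
      rcases Finset.mem_insert.1 (Finset.mem_coe.1 hx) with h | h
      · rw [h]
        exact ⟨hp, ha, rfl⟩
      · exact himg x h
    rw [Finset.card_insert_of_notMem hnot, Finset.card_image_of_injective _ hinj] at h2
    have h3 : (Q.card : ℝ) + 1 ≤ r := by exact_mod_cast h2
    linarith

theorem sum_D (N r : ℕ) (A : Finset ℕ) (hA : A ⊆ Finset.Icc 1 N)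
    (hr : ∀ m, 0 < m → rep A m ≤ r) {a : ℕ} (ha : a ∈ A) :
    ∑ q ∈ a.primeFactors, D N A (a / q) ≤
      ((r : ℝ) - 1) * ∑ p ∈ PP N, (1 : ℝ) / p + ∑ p ∈ a.primeFactors, (1 : ℝ) / p := by
  have ha1 := Finset.mem_Icc.1 (hA ha)
  unfold D
  rw [Finset.sum_comm]
  have h1 : ∀ p ∈ PP N, ∑ q ∈ a.primeFactors, (if p * (a / q) ∈ A then (1 : ℝ) / p else 0) ≤
      ((r : ℝ) - 1) * (1 / p) + if p ∣ a then (1 : ℝ) / p else 0 := by
    intro p hp
    have hp' := (Finset.mem_filter.1 hp).2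
    rw [← Finset.sum_filter, Finset.sum_const, nsmul_eq_mul]
    have h2 := count_le A r a p hr ha ha1.1 hp'
    have h3 : (0 : ℝ) ≤ 1 / p := by positivity
    have h4 := mul_le_mul_of_nonneg_right h2 h3
    refine h4.trans (le_of_eq ?_)
    split_ifs <;> ring
  refine (Finset.sum_le_sum h1).trans (le_of_eq ?_)
  rw [Finset.sum_add_distrib, ← Finset.mul_sum, ← Finset.sum_filter]
  congr 1
  refine Finset.sum_congr ?_ fun _ _ => rfl
  ext p
  simp only [Finset.mem_filter, Finset.mem_Icc, Nat.mem_primeFactors]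
  constructor
  · rintro ⟨⟨-, hp⟩, hpa⟩
    exact ⟨hp, hpa, by omega⟩
  · rintro ⟨hp, hpa, -⟩
    exact ⟨⟨⟨hp.one_lt.le, (Nat.le_of_dvd ha1.1 hpa).trans ha1.2⟩, hp⟩, hpa⟩

theorem key (N r : ℕ) (A : Finset ℕ) (hA : A ⊆ Finset.Icc 1 N)
    (hr : ∀ m, 0 < m → rep A m ≤ r) :
    (∑ a ∈ A, (a.primeFactors.card : ℝ) / a) ^ 2 ≤
      (∑ b ∈ Finset.Icc 1 N, (1 : ℝ) / b) *
        (((r : ℝ) - 1) * (∑ a ∈ A, (1 : ℝ) / a) * (∑ p ∈ PP N, (1 : ℝ) / p) +
          ∑ a ∈ A, (1 : ℝ) / a * ∑ p ∈ a.primeFactors, (1 : ℝ) / p) := by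
  have hpos : ∀ a ∈ A, 0 < a := fun a ha => (Finset.mem_Icc.1 (hA ha)).1
  have h1 : ∑ a ∈ A, (a.primeFactors.card : ℝ) / a = ∑ b ∈ Finset.Icc 1 N, D N A b / b := by
    have e1 : ∑ a ∈ A, (a.primeFactors.card : ℝ) / a =
        ∑ a ∈ A, ∑ p ∈ a.primeFactors, (fun b p : ℕ => (1 : ℝ) / p / b) (a / p) p := by
      refine Finset.sum_congr rfl fun a ha => ?_
      have e2 : ∀ p ∈ a.primeFactors, (fun b p : ℕ => (1 : ℝ) / p / b) (a / p) p = 1 / a := by
        intro p hp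
        rw [Nat.mem_primeFactors] at hp
        have h2 : ((a / p : ℕ) : ℝ) * p = a := by
          exact_mod_cast Nat.div_mul_cancel hp.2.1
        have h3 : (p : ℝ) ≠ 0 := by exact_mod_cast hp.1.ne_zero
        have h4 : (a : ℝ) ≠ 0 := by exact_mod_cast hp.2.2
        have h5 : ((a / p : ℕ) : ℝ) ≠ 0 := by
          intro h
          rw [h, zero_mul] at h2
          exact h4 h2.symm
        simp only
        rw [div_div, ← h2]
        rw [mul_comm]
      rw [Finset.sum_congr rfl e2, Finset.sum_const, nsmul_eq_mul]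
      ring
    rw [e1, reindex N A hA (fun b p : ℕ => (1 : ℝ) / p / b)]
    refine Finset.sum_congr rfl fun b _ => ?_
    unfold D
    rw [Finset.sum_div]
    refine Finset.sum_congr rfl fun p _ => ?_
    split_ifs
    · rfl
    · rw [zero_div]
  have h2 : ∑ b ∈ Finset.Icc 1 N, D N A b ^ 2 / b =
      ∑ a ∈ A, (1 : ℝ) / a * ∑ q ∈ a.primeFactors, D N A (a / q) := by
    have e1 : ∑ a ∈ A, (1 : ℝ) / a * ∑ q ∈ a.primeFactors, D N A (a / q) =
        ∑ a ∈ A, ∑ p ∈ a.primeFactors, (fun b p : ℕ => D N A b / p / b) (a / p) p := by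
      refine Finset.sum_congr rfl fun a ha => ?_
      rw [Finset.mul_sum]
      refine Finset.sum_congr rfl fun p hp => ?_
      rw [Nat.mem_primeFactors] at hp
      have h2 : ((a / p : ℕ) : ℝ) * p = a := by
        exact_mod_cast Nat.div_mul_cancel hp.2.1
      simp only
      rw [div_div, mul_comm (p : ℝ), h2]
      ring
    rw [e1, reindex N A hA (fun b p : ℕ => D N A b / p / b)]
    refine Finset.sum_congr rfl fun b _ => ?_
    have e3 : D N A b ^ 2 / b = D N A b * D N A b / b := by rw [sq]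
    rw [e3]
    conv_lhs => rw [show D N A b * D N A b / b = (D N A b / b) * D N A b by ring]
    unfold D
    rw [Finset.mul_sum]
    refine Finset.sum_congr rfl fun p _ => ?_
    split_ifs
    · ring
    · ring
  have h3 : (∑ b ∈ Finset.Icc 1 N, D N A b / b) ^ 2 ≤
      (∑ b ∈ Finset.Icc 1 N, (1 : ℝ) / b) * ∑ b ∈ Finset.Icc 1 N, D N A b ^ 2 / b := by
    refine Finset.sum_sq_le_sum_mul_sum_of_sq_le_mul _ (fun b _ => by positivity)
      (fun b _ => by positivity) fun b hb => le_of_eq ?_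
    ring
  rw [h1]
  refine h3.trans (mul_le_mul_of_nonneg_left ?_ (Finset.sum_nonneg fun b _ => by positivity))
  rw [h2]
  have h4 : ∀ a ∈ A, (1 : ℝ) / a * ∑ q ∈ a.primeFactors, D N A (a / q) ≤
      (1 : ℝ) / a * (((r : ℝ) - 1) * ∑ p ∈ PP N, (1 : ℝ) / p + ∑ p ∈ a.primeFactors, (1 : ℝ) / p) :=
    fun a ha => mul_le_mul_of_nonneg_left (sum_D N r A hA hr ha) (by positivity)
  refine (Finset.sum_le_sum h4).trans (le_of_eq ?_)
  simp only [mul_add, Finset.sum_add_distrib]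
  congr 1
  rw [← Finset.sum_mul]
  ring

end Pool.Agent.TH151.RM
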