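import Mathlib
import Pool.Agent.TH151.RM.Key

/-! Integers with few prime factors: Rankin's trick. The diagonal terms. -/

set_option autoImplicit false

namespace Pool.Agent.TH151.RM

open Finset

/-- `x ^ ω(n) / n` -/
noncomputable def ff (x : ℝ) (n : ℕ) : ℝ := x ^ n.primeFactors.card / n

theorem ff_pow (x : ℝ) {p : ℕ} (hp : p.Prime) (k : ℕ) :
    ff x (p ^ (k + 1)) = x * (1 / p) * (1 / (p : ℝ)) ^ k := by
  unfold ff
  rw [Nat.primeFactors_prime_pow (by omega) hp, Finset.card_singleton, pow_one]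
  push_cast
  rw [pow_succ, one_div, inv_pow]
  have : (p : ℝ) ≠ 0 := by exact_mod_cast hp.ne_zero
  field_simp

theorem ff_one (x : ℝ) : ff x 1 = 1 := by
  unfold ff
  simp

theorem ff_nonneg {x : ℝ} (hx : 0 ≤ x) (n : ℕ) : 0 ≤ ff x n := by
  unfold ff
  positivity

theorem ff_hasSum (x : ℝ) {p : ℕ} (hp : p.Prime) :
    HasSum (fun k => ff x (p ^ k)) (1 + x / ((p : ℝ) - 1)) := by
  have hp1 : (1 : ℝ) < p := by exact_mod_cast hp.one_lt
  have h1 : HasSum (fun k : ℕ => x * (1 / p) * (1 / (p : ℝ)) ^ k)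
      (x * (1 / p) * (1 - 1 / (p : ℝ))⁻¹) :=
    (hasSum_geometric_of_lt_one (by positivity) (by
      rw [div_lt_one (by linarith)]; exact hp1)).mul_left _
  have h2 : HasSum (fun k : ℕ => ff x (p ^ (k + 1))) (x * (1 / p) * (1 - 1 / (p : ℝ))⁻¹) := by
    simpa only [ff_pow x hp] using h1
  refine (hasSum_nat_add_iff' (f := fun k => ff x (p ^ k)) 1).1 ?_
  rw [Finset.sum_range_one, pow_zero, ff_one]
  have h4 : (p : ℝ) - 1 ≠ 0 := by linarith
  have h5 : (p : ℝ) ≠ 0 := by linarith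
  have h6 : x * (1 / p) * (1 - 1 / (p : ℝ))⁻¹ = 1 + x / ((p : ℝ) - 1) - 1 := by
    have h7 : 1 - 1 / (p : ℝ) = (p - 1) / p := by field_simp
    rw [h7, inv_div]
    field_simp
    ring
  rw [h6] at h2
  simpa using h2

theorem sum_ff_le {x : ℝ} (hx : 0 ≤ x) (N : ℕ) :
    ∑ a ∈ Finset.Icc 1 N, ff x a ≤ Real.exp (x * ∑ p ∈ PP N, 1 / ((p : ℝ) - 1)) := by
  have hmul : ∀ {m n : ℕ}, Nat.Coprime m n → ff x (m * n) = ff x m * ff x n := by
    intro m n h
    unfold ff
    rw [Nat.Coprime.primeFactors_mul h,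
      Finset.card_union_of_disjoint (Nat.Coprime.disjoint_primeFactors h), pow_add]
    push_cast
    rw [mul_div_mul_comm]
  have hsum : ∀ {p : ℕ}, p.Prime → Summable fun n : ℕ => ‖ff x (p ^ n)‖ := by
    intro p hp
    have h := (ff_hasSum x hp).summable
    refine h.congr fun n => ?_
    rw [Real.norm_of_nonneg (ff_nonneg hx _)]
  obtain ⟨h1, h2⟩ := EulerProduct.summable_and_hasSum_smoothNumbers_prod_primesBelow_tsum
    (ff_one x) hmul hsum (N + 1)
  have h3 : ∑ a ∈ Finset.Icc 1 N, ff x a ≤ ∏ p ∈ (N + 1).primesBelow, ∑' n, ff x (p ^ n) := by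
    have hmem : ∀ a ∈ Finset.Icc 1 N, a ∈ (N + 1).smoothNumbers := by
      intro a ha
      rw [Finset.mem_Icc] at ha
      exact Nat.mem_smoothNumbers_of_lt (by omega) (by omega)
    classical
    have e := Finset.sum_subtype_of_mem (s := Finset.Icc 1 N)
      (p := fun a => a ∈ (N + 1).smoothNumbers) (ff x) hmem
    rw [← e]
    exact sum_le_hasSum _ (fun a _ => ff_nonneg hx _) h2
  refine h3.trans ?_
  have h4 : ∀ p ∈ (N + 1).primesBelow, ∑' n, ff x (p ^ n) ≤ Real.exp (x * (1 / ((p : ℝ) - 1))) := by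
    intro p hp
    have hp' := Nat.prime_of_mem_primesBelow hp
    rw [(ff_hasSum x hp').tsum_eq]
    have := Real.add_one_le_exp (x * (1 / ((p : ℝ) - 1)))
    refine le_trans (le_of_eq ?_) this
    ring
  refine (Finset.prod_le_prod (fun p _ => tsum_nonneg fun n => ff_nonneg hx _) h4).trans ?_
  rw [← Real.exp_sum, ← Finset.mul_sum]
  refine le_of_eq ?_
  congr 2
  refine Finset.sum_congr ?_ fun _ _ => rfl
  ext p
  simp only [Nat.mem_primesBelow, Finset.mem_filter, Finset.mem_Icc]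
  constructor
  · rintro ⟨h, hp⟩
    exact ⟨⟨hp.one_lt.le, by omega⟩, hp⟩
  · rintro ⟨⟨h, h'⟩, hp⟩
    exact ⟨by omega, hp⟩

theorem telesc (N : ℕ) : ∑ n ∈ Finset.Icc 2 N, 1 / (((n : ℝ) - 1) * n) ≤ 1 := by
  have h : ∀ M : ℕ, ∑ n ∈ Finset.Icc 2 (M + 1), 1 / (((n : ℝ) - 1) * n) = 1 - 1 / ((M : ℝ) + 1) := by
    intro M
    induction M with
    | zero => simp
    | succ M ih =>
      rw [Finset.sum_Icc_succ_top (by omega), ih]
      push_cast
      have h1 : (M : ℝ) + 1 ≠ 0 := by positivity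
      have h2 : (M : ℝ) + 1 + 1 ≠ 0 := by positivity
      have h3 : (M : ℝ) + 1 + 1 - 1 ≠ 0 := by
        have : (M : ℝ) + 1 + 1 - 1 = M + 1 := by ring
        rw [this]; exact h1
      field_simp
      ring
  rcases N with _ | M
  · simp
  · rw [h M]
    have : (0 : ℝ) ≤ 1 / ((M : ℝ) + 1) := by positivity
    linarith

theorem sum_pred_le (N : ℕ) : ∑ p ∈ PP N, 1 / ((p : ℝ) - 1) ≤ ∑ p ∈ PP N, (1 : ℝ) / p + 1 := by
  have h1 : ∀ p ∈ PP N, 1 / ((p : ℝ) - 1) = 1 / p + 1 / (((p : ℝ) - 1) * p) := by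
    intro p hp
    have hp' := (Finset.mem_filter.1 hp).2
    have hp1 : (1 : ℝ) < p := by exact_mod_cast hp'.one_lt
    have h4 : (p : ℝ) - 1 ≠ 0 := by linarith
    have h5 : (p : ℝ) ≠ 0 := by linarith
    field_simp
    ring
  rw [Finset.sum_congr rfl h1, Finset.sum_add_distrib]
  have h2 : ∑ p ∈ PP N, 1 / (((p : ℝ) - 1) * p) ≤ ∑ n ∈ Finset.Icc 2 N, 1 / (((n : ℝ) - 1) * n) := by
    refine Finset.sum_le_sum_of_subset_of_nonneg ?_ fun n hn _ => ?_
    · intro p hp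
      have hp' := Finset.mem_filter.1 hp
      exact Finset.mem_Icc.2 ⟨hp'.2.two_le, (Finset.mem_Icc.1 hp'.1).2⟩
    · have h3 : (2 : ℝ) ≤ n := by exact_mod_cast (Finset.mem_Icc.1 hn).1
      have h4 : (0 : ℝ) < (n : ℝ) - 1 := by linarith
      positivity
  linarith [telesc N]

/-- few integers have few prime factors -/
theorem tail {x y : ℝ} (hx0 : 0 < x) (hx1 : x ≤ 1) (N : ℕ) :
    ∑ a ∈ (Finset.Icc 1 N).filter (fun a => (a.primeFactors.card : ℝ) < y), (1 : ℝ) / a ≤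
      x ^ (-y) * Real.exp (x * (∑ p ∈ PP N, (1 : ℝ) / p + 1)) := by
  have h1 : ∑ a ∈ (Finset.Icc 1 N).filter (fun a => (a.primeFactors.card : ℝ) < y), (1 : ℝ) / a ≤
      ∑ a ∈ Finset.Icc 1 N, x ^ (-y) * ff x a := by
    rw [Finset.sum_filter]
    refine Finset.sum_le_sum fun a ha => ?_
    have hxy : 0 < x ^ (-y) := Real.rpow_pos_of_pos hx0 _
    split_ifs with h
    · unfold ff
      rw [← mul_div_assoc]
      have ha0 : (0 : ℝ) < a := by exact_mod_cast (Finset.mem_Icc.1 ha).1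
      refine div_le_div_of_nonneg_right ?_ ha0.le
      rw [← Real.rpow_natCast, ← Real.rpow_add hx0]
      exact Real.one_le_rpow_of_pos_of_le_one_of_nonpos hx0 hx1 (by linarith)
    · exact mul_nonneg hxy.le (ff_nonneg hx0.le _)
  refine h1.trans ?_
  rw [← Finset.mul_sum]
  refine mul_le_mul_of_nonneg_left ?_ (Real.rpow_pos_of_pos hx0 _).le
  refine (sum_ff_le hx0.le N).trans (Real.exp_le_exp.2 ?_)
  exact mul_le_mul_of_nonneg_left (sum_pred_le N) hx0.le

/-- the diagonal terms -/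
theorem diag (N K : ℕ) (hK : 1 ≤ K) (A : Finset ℕ) (hA : A ⊆ Finset.Icc 1 N) :
    ∑ a ∈ A, (1 : ℝ) / a * ∑ p ∈ a.primeFactors, (1 : ℝ) / p ≤
      K * ∑ a ∈ A, (1 : ℝ) / a + (∑ b ∈ Finset.Icc 1 N, (1 : ℝ) / b) / K := by
  have h1 : ∀ a : ℕ, ∑ p ∈ a.primeFactors, (1 : ℝ) / p ≤
      K + ∑ p ∈ a.primeFactors, if K < p then (1 : ℝ) / p else 0 := by
    intro a
    rw [← Finset.sum_filter, ← Finset.sum_filter_add_sum_filter_not a.primeFactors (fun p => K < p),
      add_comm]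
    refine add_le_add ?_ le_rfl
    have h2 : ∀ p ∈ a.primeFactors.filter (fun p => ¬ K < p), (1 : ℝ) / p ≤ 1 := by
      intro p hp
      have hp' := Nat.prime_of_mem_primeFactors (Finset.mem_filter.1 hp).1
      have : (1 : ℝ) ≤ p := by exact_mod_cast hp'.one_lt.le
      rw [div_le_one (by linarith)]
      exact this
    refine (Finset.sum_le_sum h2).trans ?_
    rw [Finset.sum_const, nsmul_eq_mul, mul_one]
    have h3 : (a.primeFactors.filter fun p => ¬ K < p).card ≤ (Finset.Icc 1 K).card := by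
      refine Finset.card_le_card fun p hp => ?_
      have hp' := Finset.mem_filter.1 hp
      exact Finset.mem_Icc.2 ⟨(Nat.prime_of_mem_primeFactors hp'.1).one_lt.le, by
        have := hp'.2; omega⟩
    rw [Nat.card_Icc] at h3
    have : (a.primeFactors.filter fun p => ¬ K < p).card ≤ K := by omega
    exact_mod_cast this
  have h2 : ∑ a ∈ A, (1 : ℝ) / a * ∑ p ∈ a.primeFactors, (1 : ℝ) / p ≤
      ∑ a ∈ A, (1 : ℝ) / a * K + ∑ a ∈ A, (1 : ℝ) / a *
        ∑ p ∈ a.primeFactors, (if K < p then (1 : ℝ) / p else 0) := by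
    rw [← Finset.sum_add_distrib]
    refine Finset.sum_le_sum fun a _ => ?_
    rw [← mul_add]
    exact mul_le_mul_of_nonneg_left (h1 a) (by positivity)
  refine h2.trans ?_
  rw [← Finset.sum_mul, mul_comm _ (K : ℝ)]
  refine add_le_add le_rfl ?_
  have h3 : ∑ a ∈ A, (1 : ℝ) / a * ∑ p ∈ a.primeFactors, (if K < p then (1 : ℝ) / p else 0) ≤
      ∑ a ∈ Finset.Icc 1 N, (1 : ℝ) / a *
        ∑ p ∈ a.primeFactors, (if K < p then (1 : ℝ) / p else 0) := by
    refine Finset.sum_le_sum_of_subset_of_nonneg hA fun a _ _ => ?_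
    refine mul_nonneg (by positivity) (Finset.sum_nonneg fun p _ => ?_)
    split_ifs <;> positivity
  refine h3.trans ?_
  have h4 : ∑ a ∈ Finset.Icc 1 N, (1 : ℝ) / a *
        ∑ p ∈ a.primeFactors, (if K < p then (1 : ℝ) / p else 0) =
      ∑ a ∈ Finset.Icc 1 N, ∑ p ∈ a.primeFactors,
        (fun b p : ℕ => if K < p then (1 : ℝ) / b * ((p : ℝ) ^ 2)⁻¹ else 0) (a / p) p := by
    refine Finset.sum_congr rfl fun a ha => ?_
    rw [Finset.mul_sum]
    refine Finset.sum_congr rfl fun p hp => ?_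
    rw [Nat.mem_primeFactors] at hp
    have h2 : ((a / p : ℕ) : ℝ) * p = a := by
      exact_mod_cast Nat.div_mul_cancel hp.2.1
    simp only
    split_ifs
    · rw [← h2, sq]
      rw [← one_div, div_mul_div_comm, div_mul_div_comm, mul_assoc]
    · rw [mul_zero]
  rw [h4, reindex N (Finset.Icc 1 N) (Finset.Subset.refl _)
    (fun b p : ℕ => if K < p then (1 : ℝ) / b * ((p : ℝ) ^ 2)⁻¹ else 0)]
  have h5 : ∀ b ∈ Finset.Icc 1 N, (∑ p ∈ PP N, if p * b ∈ Finset.Icc 1 N then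
      (if K < p then (1 : ℝ) / b * ((p : ℝ) ^ 2)⁻¹ else 0) else 0) ≤ (1 : ℝ) / b * (1 / K) := by
    intro b _
    have h6 : (∑ p ∈ PP N, if p * b ∈ Finset.Icc 1 N then
        (if K < p then (1 : ℝ) / b * ((p : ℝ) ^ 2)⁻¹ else 0) else 0) ≤
        ∑ p ∈ PP N, if K < p then (1 : ℝ) / b * ((p : ℝ) ^ 2)⁻¹ else 0 := by
      refine Finset.sum_le_sum fun p _ => ?_
      split_ifs <;> first | exact le_rfl | positivity
    refine h6.trans ?_
    rw [← Finset.sum_filter, ← Finset.mul_sum]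
    refine mul_le_mul_of_nonneg_left ?_ (by positivity)
    have h7 : ∑ p ∈ (PP N).filter (fun p => K < p), ((p : ℝ) ^ 2)⁻¹ ≤
        ∑ n ∈ Finset.Ioc K (K + N), ((n : ℝ) ^ 2)⁻¹ := by
      refine Finset.sum_le_sum_of_subset_of_nonneg ?_ fun n _ _ => by positivity
      intro p hp
      simp only [Finset.mem_filter, Finset.mem_Icc] at hp
      exact Finset.mem_Ioc.2 ⟨hp.2, by omega⟩
    have h8 := sum_Ioc_inv_sq_le_sub (α := ℝ) (k := K) (n := K + N) (by omega) (by omega)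
    have h9 : (0 : ℝ) ≤ (((K + N : ℕ) : ℝ))⁻¹ := by positivity
    rw [one_div]
    linarith
  refine (Finset.sum_le_sum h5).trans (le_of_eq ?_)
  rw [← Finset.sum_mul]
  ring

end Pool.Agent.TH151.RM
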